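import Pool.Agent.Results.MP_fe2d2a_an.EvenCase
import Pool.Agent.W299.EV3.Alg2

set_option autoImplicit false

open Polynomial Set
open Pool.Agent.Results.MP_fe2d2a_an.EvenCase (Good)

namespace Pool.Agent.Results.MP_fe2d2a_an.DegreeSix

/-- `P_t`: product over the multiset `M` of pairs `(r, a)` of
`X^2 - 2 r cos(t + a) X + r^2`; its zeros are the points `r e^(± i (t + a))`. -/
noncomputable def P (M : Multiset (ℝ × ℝ)) (t : ℝ) : ℝ[X] :=
  (M.map fun p => X ^ 2 - C (2 * p.1 * Real.cos (t + p.2)) * X + C (p.1 ^ 2)).prod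

theorem P_eq : P = EvenCase.P := rfl

theorem hex_expand (u v w : ℝ) :
    (X ^ 2 + C u * X + C 1 : ℝ[X]) * (X ^ 2 + C v * X + C 1) * (X ^ 2 + C w * X + C 1) =
    X ^ 6 + C (u + v + w) * X ^ 5 + C (3 + u * v + v * w + w * u) * X ^ 4 +
      C (2 * (u + v + w) + u * v * w) * X ^ 3 + C (3 + u * v + v * w + w * u) * X ^ 2 +
      C (u + v + w) * X + C 1 := by
  have h3 : (C 3 : ℝ[X]) = 3 := rfl
  have h2 : (C 2 : ℝ[X]) = 2 := rfl
  have h1 : (C 1 : ℝ[X]) = 1 := rfl
  simp only [C_add, C_mul, h1, h2, h3]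
  ring

theorem hex_coeff (u v w : ℝ) (j : ℕ) :
    ((X ^ 2 + C u * X + C 1 : ℝ[X]) * (X ^ 2 + C v * X + C 1) *
      (X ^ 2 + C w * X + C 1)).coeff j =
    (if j = 6 then 1 else 0) + (u + v + w) * (if j = 5 then 1 else 0) +
      (3 + u * v + v * w + w * u) * (if j = 4 then 1 else 0) +
      (2 * (u + v + w) + u * v * w) * (if j = 3 then 1 else 0) +
      (3 + u * v + v * w + w * u) * (if j = 2 then 1 else 0) +
      (u + v + w) * (if 1 = j then 1 else 0) +
      (if j = 0 then 1 else 0) := by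
  rw [hex_expand]
  simp only [coeff_add, coeff_C_mul, coeff_X_pow, coeff_X, coeff_C]

/-- minus twice the cosine -/
noncomputable def xx (a t : ℝ) : ℝ := -2 * Real.cos (t + a)

/-- twice the sine -/
noncomputable def pp (a t : ℝ) : ℝ := 2 * Real.sin (t + a)

theorem xx_deriv (a t : ℝ) : HasDerivAt (xx a) (pp a t) t := by
  have h : HasDerivAt (fun s : ℝ => s + a) 1 t := (hasDerivAt_id t).add_const a
  have h2 := (h.cos).const_mul (-2 : ℝ)
  have e : pp a t = -2 * (-Real.sin (t + a) * 1) := by unfold pp; ring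
  rw [e]
  exact h2

theorem pp_sq (a t : ℝ) : pp a t ^ 2 = 4 - xx a t ^ 2 := by
  unfold pp xx
  have := Real.sin_sq_add_cos_sq (t + a)
  nlinarith

theorem pp_pos {a t : ℝ} (h0 : 0 < t + a) (h1 : t + a < Real.pi) : 0 < pp a t := by
  unfold pp
  have := Real.sin_pos_of_pos_of_lt_pi h0 h1
  linarith

theorem xx_abs {a t : ℝ} (h : 0 < pp a t) : |xx a t| < 2 := by
  have h1 := pp_sq a t
  have h2 : xx a t ^ 2 < 2 ^ 2 := by nlinarith [pow_pos h 2]
  exact abs_lt_of_sq_lt_sq h2 (by norm_num)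

theorem hex_mono {a b c : ℝ} (ha : 0 < a) (ha' : a < Real.pi) (hb : 0 < b) (hb' : b < Real.pi)
    (hc : 0 < c) (hc' : c < Real.pi)
    (h1 : 0 ≤ xx a 0 + xx b 0 + xx c 0)
    (h2 : 0 ≤ 3 + xx a 0 * xx b 0 + xx b 0 * xx c 0 + xx c 0 * xx a 0)
    (h3 : 0 ≤ 2 * (xx a 0 + xx b 0 + xx c 0) + xx a 0 * xx b 0 * xx c 0) :
    ∃ δ > (0 : ℝ), MonotoneOn (fun t => xx a t + xx b t + xx c t) (Icc 0 δ) ∧
      MonotoneOn (fun t => 3 + xx a t * xx b t + xx b t * xx c t + xx c t * xx a t)
        (Icc 0 δ) ∧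
      MonotoneOn (fun t => 2 * (xx a t + xx b t + xx c t) + xx a t * xx b t * xx c t)
        (Icc 0 δ) := by
  have cx : ∀ d, Continuous (xx d) := fun d =>
    continuous_iff_continuousAt.2 fun t => (xx_deriv d t).continuousAt
  have cp : ∀ d, Continuous (pp d) := fun d => by unfold pp; fun_prop
  have hE0 : 0 < pp a 0 * (2 + xx b 0 * xx c 0) + pp b 0 * (2 + xx a 0 * xx c 0) +
      pp c 0 * (2 + xx a 0 * xx b 0) := by
    have pa := pp_pos (a := a) (t := 0) (by linarith) (by linarith)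
    have pb := pp_pos (a := b) (t := 0) (by linarith) (by linarith)
    have pc := pp_pos (a := c) (t := 0) (by linarith) (by linarith)
    exact Pool.Agent.W299.EV3.E_pos (xx_abs pa) (xx_abs pb) (xx_abs pc) (pp_sq a 0)
      (pp_sq b 0) (pp_sq c 0) pa pb pc h1 h2 h3
  have hcE : Continuous (fun t => pp a t * (2 + xx b t * xx c t) +
      pp b t * (2 + xx a t * xx c t) + pp c t * (2 + xx a t * xx b t)) := by
    have := cx a; have := cx b; have := cx c
    have := cp a; have := cp b; have := cp c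
    fun_prop
  have hev := (hcE.continuousAt (x := 0)).eventually (lt_mem_nhds hE0)
  obtain ⟨e, he, hE⟩ := Metric.eventually_nhds_iff.1 hev
  set δ : ℝ := min (e / 2) (min ((Real.pi - a) / 2) (min ((Real.pi - b) / 2)
    ((Real.pi - c) / 2))) with hδ
  have hδe : δ ≤ e / 2 := min_le_left _ _
  have hδa : δ ≤ (Real.pi - a) / 2 := (min_le_right _ _).trans (min_le_left _ _)
  have hδb : δ ≤ (Real.pi - b) / 2 :=
    ((min_le_right _ _).trans (min_le_right _ _)).trans (min_le_left _ _)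
  have hδc : δ ≤ (Real.pi - c) / 2 :=
    ((min_le_right _ _).trans (min_le_right _ _)).trans (min_le_right _ _)
  have hδ0 : 0 < δ := by
    apply lt_min (by linarith) (lt_min (by linarith) (lt_min (by linarith) (by linarith)))
  have ppa : ∀ t ∈ Icc 0 δ, 0 < pp a t := fun t ht =>
    pp_pos (by linarith [ht.1]) (by linarith [ht.2])
  have ppb : ∀ t ∈ Icc 0 δ, 0 < pp b t := fun t ht =>
    pp_pos (by linarith [ht.1]) (by linarith [ht.2])
  have ppc : ∀ t ∈ Icc 0 δ, 0 < pp c t := fun t ht =>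
    pp_pos (by linarith [ht.1]) (by linarith [ht.2])
  have m1 : MonotoneOn (fun t => xx a t + xx b t + xx c t) (Icc 0 δ) := by
    have hd : ∀ t, HasDerivAt (fun t => xx a t + xx b t + xx c t)
        (pp a t + pp b t + pp c t) t := fun t =>
      ((xx_deriv a t).add (xx_deriv b t)).add (xx_deriv c t)
    refine monotoneOn_of_deriv_nonneg (convex_Icc 0 δ)
      (fun t _ => (hd t).continuousAt.continuousWithinAt)
      (fun t _ => (hd t).differentiableAt.differentiableWithinAt) fun t ht => ?_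
    rw [(hd t).deriv]
    have ht' := interior_subset ht
    linarith [ppa t ht', ppb t ht', ppc t ht']
  have m3 : MonotoneOn (fun t => 2 * (xx a t + xx b t + xx c t) + xx a t * xx b t * xx c t)
      (Icc 0 δ) := by
    have hd : ∀ t, HasDerivAt
        (fun t => 2 * (xx a t + xx b t + xx c t) + xx a t * xx b t * xx c t)
        (2 * (pp a t + pp b t + pp c t) +
          ((pp a t * xx b t + xx a t * pp b t) * xx c t + xx a t * xx b t * pp c t)) t :=
      fun t => ((((xx_deriv a t).add (xx_deriv b t)).add (xx_deriv c t)).const_mul 2).add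
        (((xx_deriv a t).mul (xx_deriv b t)).mul (xx_deriv c t))
    refine monotoneOn_of_deriv_nonneg (convex_Icc 0 δ)
      (fun t _ => (hd t).continuousAt.continuousWithinAt)
      (fun t _ => (hd t).differentiableAt.differentiableWithinAt) fun t ht => ?_
    rw [(hd t).deriv]
    have ht' := interior_subset ht
    have := hE (y := t) (by
      rw [Real.dist_eq, sub_zero, abs_of_nonneg ht'.1]
      linarith [ht'.2])
    linarith
  have m2 : MonotoneOn (fun t => 3 + xx a t * xx b t + xx b t * xx c t + xx c t * xx a t)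
      (Icc 0 δ) := by
    have hd : ∀ t, HasDerivAt
        (fun t => 3 + xx a t * xx b t + xx b t * xx c t + xx c t * xx a t)
        ((pp a t * xx b t + xx a t * pp b t) + (pp b t * xx c t + xx b t * pp c t) +
          (pp c t * xx a t + xx c t * pp a t)) t :=
      fun t => ((((xx_deriv a t).mul (xx_deriv b t)).const_add 3).add
        ((xx_deriv b t).mul (xx_deriv c t))).add ((xx_deriv c t).mul (xx_deriv a t))
    refine monotoneOn_of_deriv_nonneg (convex_Icc 0 δ)
      (fun t _ => (hd t).continuousAt.continuousWithinAt)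
      (fun t _ => (hd t).differentiableAt.differentiableWithinAt) fun t ht => ?_
    rw [(hd t).deriv]
    have ht' := interior_subset ht
    have g1 : 0 ≤ xx a t + xx b t + xx c t :=
      h1.trans (m1 (left_mem_Icc.2 hδ0.le) ht' ht'.1)
    have g3 : 0 ≤ 2 * (xx a t + xx b t + xx c t) + xx a t * xx b t * xx c t :=
      h3.trans (m3 (left_mem_Icc.2 hδ0.le) ht' ht'.1)
    have := Pool.Agent.W299.EV3.K_nonneg (xx_abs (ppa t ht')) (xx_abs (ppb t ht'))
      (xx_abs (ppc t ht')) (pp_sq a t) (pp_sq b t) (pp_sq c t) (ppa t ht') (ppb t ht')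
      (ppc t ht') g1 g3
    linarith
  exact ⟨δ, hδ0, m1, m2, m3⟩

/-- blocks of degree six with zeros on the unit circle -/
theorem good_hex {a b c : ℝ} (ha : 0 < a) (ha' : a < Real.pi) (hb : 0 < b)
    (hb' : b < Real.pi) (hc : 0 < c) (hc' : c < Real.pi)
    (h0 : ∀ j, 0 ≤ ((X ^ 2 + C (xx a 0) * X + C 1 : ℝ[X]) * (X ^ 2 + C (xx b 0) * X + C 1) *
      (X ^ 2 + C (xx c 0) * X + C 1)).coeff j) :
    ∃ δ > (0 : ℝ), Good (fun t => (X ^ 2 + C (xx a t) * X + C 1 : ℝ[X]) *
      (X ^ 2 + C (xx b t) * X + C 1) * (X ^ 2 + C (xx c t) * X + C 1)) (Icc 0 δ) := by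
  have h1 := h0 1
  have h2 := h0 2
  have h3 := h0 3
  rw [hex_coeff] at h1 h2 h3
  norm_num at h1 h2 h3
  obtain ⟨δ, hδ, m1, m2, m3⟩ := hex_mono ha ha' hb hb' hc hc' h1 (by linarith) (by linarith)
  refine ⟨δ, hδ, Good.of_mono hδ h0 fun j t ht u hu htu => ?_⟩
  have k1 := m1 ht hu htu
  have k2 := m2 ht hu htu
  have k3 := m3 ht hu htu
  simp only [hex_coeff]
  simp only at k1 k2 k3
  split_ifs <;> linarith

theorem quad_eq (a t : ℝ) :
    (X ^ 2 - C (2 * 1 * Real.cos (t + a)) * X + C (1 ^ 2) : ℝ[X]) =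
      X ^ 2 + C (xx a t) * X + C 1 := by
  unfold xx
  rw [show (-2 * Real.cos (t + a)) = -(2 * 1 * Real.cos (t + a)) by ring, C_neg, one_pow]
  ring

/-- admissible blocks: at most two pairs of zeros, or three pairs on the unit circle -/
theorem small_P (b : Multiset (ℝ × ℝ)) (hb : ∀ p ∈ b, 0 < p.1 ∧ 0 < p.2 ∧ p.2 < Real.pi)
    (hc : Multiset.card b ≤ 2 ∨ (Multiset.card b = 3 ∧ ∀ p ∈ b, p.1 = 1))
    (hpos : ∀ j, 0 ≤ (P b 0).coeff j) :
    ∃ ε > (0 : ℝ), Good (P b) (Icc 0 ε) := by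
  rcases hc with hc | ⟨hc, h1⟩
  · exact EvenCase.small_P b hb hc hpos
  · obtain ⟨p, q, r, rfl⟩ := Multiset.card_eq_three.1 hc
    obtain ⟨-, hp2, hp3⟩ := hb p (by simp)
    obtain ⟨-, hq2, hq3⟩ := hb q (by simp)
    obtain ⟨-, hr2, hr3⟩ := hb r (by simp)
    have hp1 := h1 p (by simp)
    have hq1 := h1 q (by simp)
    have hr1 := h1 r (by simp)
    have e : P {p, q, r} = fun t => (X ^ 2 + C (xx p.2 t) * X + C 1 : ℝ[X]) *
        (X ^ 2 + C (xx q.2 t) * X + C 1) * (X ^ 2 + C (xx r.2 t) * X + C 1) := by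
      funext t
      unfold P
      rw [Multiset.insert_eq_cons, Multiset.insert_eq_cons, Multiset.map_cons,
        Multiset.map_cons, Multiset.map_singleton, Multiset.prod_cons, Multiset.prod_cons,
        Multiset.prod_singleton, hp1, hq1, hr1, quad_eq, quad_eq, quad_eq, mul_assoc]
    rw [e] at hpos ⊢
    exact good_hex hp2 hp3 hq2 hq3 hr2 hr3 hpos

theorem blocks_P (B : Multiset (Multiset (ℝ × ℝ)))
    (hB : ∀ b ∈ B, (Multiset.card b ≤ 2 ∨ (Multiset.card b = 3 ∧ ∀ p ∈ b, p.1 = 1)) ∧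
      (∀ p ∈ b, 0 < p.1 ∧ 0 < p.2 ∧ p.2 < Real.pi) ∧ ∀ j, 0 ≤ (P b 0).coeff j) :
    ∃ ε > (0 : ℝ), Good (P B.sum) (Icc 0 ε) := by
  induction B using Multiset.induction_on with
  | empty =>
    rw [Multiset.sum_zero]
    exact small_P 0 (by simp) (by simp) (by
      intro j
      have : P (0 : Multiset (ℝ × ℝ)) 0 = 1 := by simp [P]
      rw [this, coeff_one]
      split_ifs <;> norm_num)
  | cons b B ih =>
    obtain ⟨ε, hε, h1⟩ := ih fun c hc => hB c (Multiset.mem_cons_of_mem hc)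
    obtain ⟨hb1, hb2, hb3⟩ := hB b (Multiset.mem_cons_self b B)
    obtain ⟨δ, hδ, h2⟩ := small_P b hb2 hb1 hb3
    refine ⟨min ε δ, lt_min hε hδ, ?_⟩
    have he : P (Multiset.sum (b ::ₘ B)) = fun t => P b t * P B.sum t := by
      funext t
      rw [Multiset.sum_cons]
      exact EvenCase.P_add b B.sum t
    rw [he]
    exact Good.mul (h2.subset (Icc_subset_Icc le_rfl (min_le_right _ _)))
      (h1.subset (Icc_subset_Icc le_rfl (min_le_left _ _)))

/-- **Evans' rotation statement in degree six**, and for products. `E` is a multiset of pairs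
`(r, a)` (`r > 0`, `0 < a < π`) such that `P E 0` is an even polynomial with nonnegative
coefficients; `B` is a multiset of blocks with nonnegative coefficients, each of them either
with at most two such pairs, or with exactly three pairs on the unit circle (`r = 1`).
Then all coefficients of the rotated polynomial `P (E + B.sum) t` are nondecreasing on some
interval `[0, ε]`. The case `E = 0`, `B = {b}` with three pairs is Evans' question for
`n = 3` (degree six). -/
theorem result (E : Multiset (ℝ × ℝ)) (B : Multiset (Multiset (ℝ × ℝ)))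
    (hE : ∀ p ∈ E, 0 < p.1 ∧ 0 < p.2 ∧ p.2 < Real.pi)
    (hpos : ∀ j, 0 ≤ (P E 0).coeff j) (hodd : ∀ j, Odd j → (P E 0).coeff j = 0)
    (hB : ∀ b ∈ B, (Multiset.card b ≤ 2 ∨ (Multiset.card b = 3 ∧ ∀ p ∈ b, p.1 = 1)) ∧
      (∀ p ∈ b, 0 < p.1 ∧ 0 < p.2 ∧ p.2 < Real.pi) ∧ ∀ j, 0 ≤ (P b 0).coeff j) :
    ∃ ε > (0 : ℝ), ∀ j, MonotoneOn (fun t => (P (E + B.sum) t).coeff j) (Icc 0 ε) := by
  obtain ⟨ε, hε, h1⟩ := EvenCase.even_P E hE hpos hodd
  obtain ⟨δ, hδ, h2⟩ := blocks_P B hB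
  refine ⟨min ε δ, lt_min hε hδ, fun j => ?_⟩
  have he : P (E + B.sum) = fun t => P E t * P B.sum t := by
    funext t
    exact EvenCase.P_add E B.sum t
  rw [he]
  exact (Good.mul (h1.subset (Icc_subset_Icc le_rfl (min_le_left _ _)))
    (h2.subset (Icc_subset_Icc le_rfl (min_le_right _ _))) j).2

end Pool.Agent.Results.MP_fe2d2a_an.DegreeSix
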